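import Pool.Agent.Y923.OJ.SF2

/-!
# OJ-SF, part 3: decay of the transforms of the kernels
-/

set_option autoImplicit false
set_option maxHeartbeats 400000

namespace Pool.Agent.Y923.OJ

open Finset Filter Topology MeasureTheory
open H370 (zset mult NN Zf zz)
open Pool.Agent.Y746.OM Pool.Agent.Y746.OJ

noncomputable section

/-- the integrand -/
def fv (V : ℂ → ℂ) (ξ : ℝ) (z : ℂ) : ℂ := V z * Complex.exp (-(ξ : ℂ) * z * Complex.I)

lemma fv_diff {V : ℂ → ℂ} (hV : Differentiable ℂ V) (ξ : ℝ) : Differentiable ℂ (fv V ξ) := by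
  unfold fv
  fun_prop

lemma fv_norm {V : ℂ → ℂ} {M0 M : ℝ} (hV : KerOK V M0 M) (ξ : ℝ) {z : ℂ} (hz : |z.im| ≤ 1) :
    ‖fv V ξ z‖ ≤ M * Real.exp (-z.re ^ 2 / 4) * Real.exp (ξ * z.im) := by
  unfold fv
  rw [norm_mul, Complex.norm_exp]
  have h1 : (-(ξ : ℂ) * z * Complex.I).re = ξ * z.im := by
    simp
  rw [h1]
  exact mul_le_mul_of_nonneg_right (hV.2.2.2 z hz) (Real.exp_pos _).le

lemma gau : Integrable (fun x : ℝ => Real.exp (-x ^ 2 / 4)) := by
  have := integrable_exp_neg_mul_sq (b := 1 / 4) (by norm_num)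
  refine this.congr (Eventually.of_forall fun x => ?_)
  simp only
  congr 1
  ring

lemma gau_val : ∫ x : ℝ, Real.exp (-x ^ 2 / 4) ≤ 4 := by
  have h1 : ∀ x : ℝ, Real.exp (-x ^ 2 / 4) = Real.exp (-(1 / 4) * x ^ 2) := by
    intro x
    congr 1
    ring
  simp_rw [h1]
  rw [integral_gaussian, Real.sqrt_le_left (by norm_num)]
  have := Real.pi_le_four
  linarith

lemma fv_int {V : ℂ → ℂ} {M0 M : ℝ} (hV : KerOK V M0 M) (ξ : ℝ) {c : ℝ} (hc : |c| ≤ 1) :
    Integrable (fun x : ℝ => fv V ξ ((x : ℂ) + (c : ℂ) * Complex.I)) := by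
  have h1 : Continuous (fun x : ℝ => fv V ξ ((x : ℂ) + (c : ℂ) * Complex.I)) := by
    refine (fv_diff hV.1 ξ).continuous.comp ?_
    fun_prop
  refine ((gau.const_mul M).mul_const (Real.exp (ξ * c))).mono' h1.aestronglyMeasurable
    (Eventually.of_forall fun x => ?_)
  have h2 := fv_norm hV ξ (z := (x : ℂ) + (c : ℂ) * Complex.I) (by simpa using hc)
  simpa using h2

lemma shift {V : ℂ → ℂ} {M0 M : ℝ} (hM : 0 ≤ M) (hV : KerOK V M0 M) (ξ : ℝ) :
    ∫ x : ℝ, fv V ξ ((x : ℂ) + ((0 : ℝ) : ℂ) * Complex.I) =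
    ∫ x : ℝ, fv V ξ ((x : ℂ) + ((-1 : ℝ) : ℂ) * Complex.I) := by
  have h0 := fv_int hV ξ (c := 0) (by norm_num)
  have h1 := fv_int hV ξ (c := -1) (by norm_num)
  have l0 := intervalIntegral_tendsto_integral h0 (tendsto_neg_atTop_atBot) tendsto_id
  have l1 := intervalIntegral_tendsto_integral h1 (tendsto_neg_atTop_atBot) tendsto_id
  have hside : ∀ ε : ℝ, ε = 1 ∨ ε = -1 → Tendsto (fun R : ℝ => ∫ y in (-1 : ℝ)..0,
      fv V ξ (((ε * R : ℝ) : ℂ) + (y : ℂ) * Complex.I)) atTop (𝓝 0) := by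
    intro ε hε
    have hε2 : ε ^ 2 = 1 := by rcases hε with h | h <;> rw [h] <;> norm_num
    have hb : ∀ R : ℝ, ‖∫ y in (-1 : ℝ)..0, fv V ξ (((ε * R : ℝ) : ℂ) + (y : ℂ) * Complex.I)‖ ≤
        M * Real.exp |ξ| * Real.exp (-R ^ 2 / 4) := by
      intro R
      have h2 := intervalIntegral.norm_integral_le_of_norm_le_const (a := (-1 : ℝ)) (b := 0)
        (C := M * Real.exp |ξ| * Real.exp (-R ^ 2 / 4))
        (f := fun y => fv V ξ (((ε * R : ℝ) : ℂ) + (y : ℂ) * Complex.I)) (by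
          intro y hy
          rw [Set.uIoc_of_le (by norm_num)] at hy
          have hy1 : |y| ≤ 1 := abs_le.2 ⟨hy.1.le, by linarith [hy.2]⟩
          have h3 := fv_norm hV ξ (z := ((ε * R : ℝ) : ℂ) + (y : ℂ) * Complex.I) (by simpa using hy1)
          refine h3.trans ?_
          have h4 : (((ε * R : ℝ) : ℂ) + (y : ℂ) * Complex.I).re = ε * R := by simp
          have h5 : (((ε * R : ℝ) : ℂ) + (y : ℂ) * Complex.I).im = y := by simp
          rw [h4, h5, mul_pow, hε2, one_mul]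
          have h6 : Real.exp (ξ * y) ≤ Real.exp |ξ| := by
            apply Real.exp_le_exp.2
            refine (le_abs_self _).trans ?_
            rw [abs_mul]
            exact mul_le_of_le_one_right (abs_nonneg _) hy1
          calc M * Real.exp (-R ^ 2 / 4) * Real.exp (ξ * y) ≤
                M * Real.exp (-R ^ 2 / 4) * Real.exp |ξ| :=
                mul_le_mul_of_nonneg_left h6 (by positivity)
            _ = M * Real.exp |ξ| * Real.exp (-R ^ 2 / 4) := by ring)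
      simpa using h2
    refine squeeze_zero_norm hb ?_
    have h3 : Tendsto (fun R : ℝ => Real.exp (-R ^ 2 / 4)) atTop (𝓝 0) := by
      refine Real.tendsto_exp_atBot.comp ?_
      have h4 : Tendsto (fun R : ℝ => R ^ 2 / 4) atTop atTop :=
        (tendsto_pow_atTop (by norm_num)).atTop_div_const (by norm_num)
      refine (tendsto_neg_atTop_atBot.comp h4).congr fun R => ?_
      simp only [Function.comp]
      ring
    have h5 := h3.const_mul (M * Real.exp |ξ|)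
    rwa [mul_zero] at h5
  have hr : ∀ R : ℝ, (∫ x in (-R)..R, fv V ξ ((x : ℂ) + ((-1 : ℝ) : ℂ) * Complex.I)) -
      (∫ x in (-R)..R, fv V ξ ((x : ℂ) + ((0 : ℝ) : ℂ) * Complex.I)) +
      Complex.I • (∫ y in (-1 : ℝ)..0, fv V ξ (((1 * R : ℝ) : ℂ) + (y : ℂ) * Complex.I)) -
      Complex.I • (∫ y in (-1 : ℝ)..0, fv V ξ (((-1 * R : ℝ) : ℂ) + (y : ℂ) * Complex.I)) = 0 := by
    intro R
    have h2 := Complex.integral_boundary_rect_eq_zero_of_differentiableOn (fv V ξ)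
      (⟨-R, -1⟩ : ℂ) (⟨R, 0⟩ : ℂ) (fv_diff hV.1 ξ).differentiableOn
    simp only at h2
    rw [one_mul, neg_one_mul]
    exact h2
  have lim : Tendsto (fun R : ℝ => (∫ x in (-R)..R, fv V ξ ((x : ℂ) + ((-1 : ℝ) : ℂ) * Complex.I)) -
      (∫ x in (-R)..R, fv V ξ ((x : ℂ) + ((0 : ℝ) : ℂ) * Complex.I)) +
      Complex.I • (∫ y in (-1 : ℝ)..0, fv V ξ (((1 * R : ℝ) : ℂ) + (y : ℂ) * Complex.I)) -
      Complex.I • (∫ y in (-1 : ℝ)..0, fv V ξ (((-1 * R : ℝ) : ℂ) + (y : ℂ) * Complex.I))) atTop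
      (𝓝 ((∫ x : ℝ, fv V ξ ((x : ℂ) + ((-1 : ℝ) : ℂ) * Complex.I)) -
        (∫ x : ℝ, fv V ξ ((x : ℂ) + ((0 : ℝ) : ℂ) * Complex.I)) + Complex.I • 0 -
        Complex.I • 0)) :=
    ((l1.sub l0).add ((hside 1 (Or.inl rfl)).const_smul Complex.I)).sub
      ((hside (-1) (Or.inr rfl)).const_smul Complex.I)
  simp_rw [hr] at lim
  have h2 := tendsto_nhds_unique lim tendsto_const_nhds
  rw [smul_zero, add_zero, sub_zero, sub_eq_zero] at h2
  exact h2.symm

theorem t_VH : S_VH := by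
  intro V M0 M h0 hM hV n hn
  have h1 : VH V (Real.log n) = ∫ x : ℝ, fv V (Real.log n) ((x : ℂ) + ((0 : ℝ) : ℂ) * Complex.I) := by
    unfold VH
    refine integral_congr_ae (Eventually.of_forall fun x => ?_)
    simp only [fv]
    simp
  rw [h1, shift hM hV]
  have h2 : ∀ x : ℝ, ‖fv V (Real.log n) ((x : ℂ) + ((-1 : ℝ) : ℂ) * Complex.I)‖ ≤
      M * (n : ℝ)⁻¹ * Real.exp (-x ^ 2 / 4) := by
    intro x
    have h3 := fv_norm hV (Real.log n) (z := (x : ℂ) + ((-1 : ℝ) : ℂ) * Complex.I) (by simp)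
    have h4 : ((x : ℂ) + ((-1 : ℝ) : ℂ) * Complex.I).re = x := by simp
    have h5 : ((x : ℂ) + ((-1 : ℝ) : ℂ) * Complex.I).im = -1 := by simp
    rw [h4, h5] at h3
    have h6 : Real.exp (Real.log n * (-1)) = (n : ℝ)⁻¹ := by
      rw [mul_neg_one, Real.exp_neg, Real.exp_log (by exact_mod_cast hn)]
    rw [h6] at h3
    refine h3.trans (le_of_eq ?_)
    ring
  refine (norm_integral_le_of_norm_le (gau.const_mul (M * (n : ℝ)⁻¹))
    (Eventually.of_forall h2)).trans ?_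
  rw [integral_const_mul]
  calc M * (n : ℝ)⁻¹ * ∫ x : ℝ, Real.exp (-x ^ 2 / 4) ≤ M * (n : ℝ)⁻¹ * 4 :=
        mul_le_mul_of_nonneg_left gau_val (by positivity)
    _ = 4 * M / n := by rw [div_eq_mul_inv]; ring

/-- the formula for `S0` -/
theorem t_SF' (hCT : S_CT) (hLI : S_LI) : S_SF := t_SF t_VH hCT hLI

end

end Pool.Agent.Y923.OJ
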