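import Pool.Agent.Y746.OJ.Stm

/-!
# OJ-SF, part 1: the sum over the primes and the zeros
-/

set_option autoImplicit false
set_option maxHeartbeats 400000

namespace Pool.Agent.Y923.OJ

open Finset Filter Topology MeasureTheory
open H370 (zset mult NN Zf zz)
open Pool.Agent.Y746.OM Pool.Agent.Y746.OJ

noncomputable section

/-- decay of the transforms of the kernels -/
def S_VH : Prop := ∀ (V : ℂ → ℂ) (M0 M : ℝ), 0 ≤ M0 → 0 ≤ M → KerOK V M0 M →
  ∀ n : ℕ, 1 ≤ n → ‖VH V (Real.log n)‖ ≤ 4 * M / n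

/-- bound for the transform -/
lemma vh_le {V : ℂ → ℂ} {M0 M : ℝ} (h0 : 0 ≤ M0) (hV : KerOK V M0 M) (ξ : ℝ) :
    ‖VH V ξ‖ ≤ 4 * M0 := by
  unfold VH
  have hb : Integrable (fun v : ℝ => M0 * Real.exp (-(1 / 4) * v ^ 2)) :=
    (integrable_exp_neg_mul_sq (by norm_num)).const_mul _
  have h1 : ‖∫ v : ℝ, V (v : ℂ) * Complex.exp (-(ξ : ℂ) * (v : ℂ) * Complex.I)‖ ≤
      ∫ v : ℝ, M0 * Real.exp (-(1 / 4) * v ^ 2) := by
    refine norm_integral_le_of_norm_le hb (Eventually.of_forall fun v => ?_)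
    rw [norm_mul]
    have h2 : ‖Complex.exp (-(ξ : ℂ) * (v : ℂ) * Complex.I)‖ = 1 := by
      rw [Complex.norm_exp]
      simp
    rw [h2, mul_one]
    refine (hV.2.2.1 v).trans (le_of_eq ?_)
    congr 2
    ring
  refine h1.trans ?_
  rw [integral_const_mul, integral_gaussian, mul_comm]
  refine mul_le_mul_of_nonneg_right ?_ h0
  rw [Real.sqrt_le_left (by norm_num)]
  have := Real.pi_le_four
  linarith

/-- the coefficients -/
def cc (V : ℂ → ℂ) (t : ℝ) (n : ℕ) : ℂ := (n : ℂ) ^ (-((t : ℂ) * Complex.I)) * VH V (Real.log n)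

lemma cc_norm (V : ℂ → ℂ) (t : ℝ) {n : ℕ} (hn : 1 ≤ n) : ‖cc V t n‖ = ‖VH V (Real.log n)‖ := by
  unfold cc
  rw [norm_mul, Complex.norm_natCast_cpow_of_pos (by omega)]
  simp

/-- the terms of the series -/
lemma term_eq (V : ℂ → ℂ) (t σ : ℝ) (n : ℕ) :
    (ArithmeticFunction.vonMangoldt n : ℂ) * (n : ℂ) ^ (-(pt σ t)) * VH V (Real.log n) =
      ((ArithmeticFunction.vonMangoldt n * (n : ℝ) ^ (-σ) : ℝ) : ℂ) * cc V t n := by
  unfold cc pt
  rcases Nat.eq_zero_or_pos n with h | h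
  · subst h
    simp
  · have hn : (n : ℂ) ≠ 0 := by exact_mod_cast h.ne'
    have h1 : -((σ : ℂ) + (t : ℂ) * Complex.I) = -(σ : ℂ) + -((t : ℂ) * Complex.I) := by ring
    rw [h1, Complex.cpow_add _ _ hn]
    have h2 : (n : ℂ) ^ (-(σ : ℂ)) = (((n : ℝ) ^ (-σ) : ℝ) : ℂ) := by
      rw [Complex.ofReal_cpow n.cast_nonneg]
      push_cast
      rfl
    rw [h2]
    push_cast
    ring

/-- `Λ(n) ≤ 4 n^{1/4}` -/
lemma mang_le (n : ℕ) : ArithmeticFunction.vonMangoldt n ≤ 4 * (n : ℝ) ^ (1 / 4 : ℝ) := by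
  refine ArithmeticFunction.vonMangoldt_le_log.trans ?_
  have h := Real.log_le_rpow_div (x := (n : ℝ)) (ε := 1 / 4) n.cast_nonneg (by norm_num)
  linarith

lemma rp_mul {n : ℕ} (hn : 1 ≤ n) (a b : ℝ) :
    (n : ℝ) ^ a * (n : ℝ) ^ b = (n : ℝ) ^ (a + b) :=
  (Real.rpow_add (by exact_mod_cast hn) a b).symm

/-- the imaginary parts of the terms -/
def ff (V : ℂ → ℂ) (t : ℝ) (n : ℕ) (σ : ℝ) : ℝ :=
  ArithmeticFunction.vonMangoldt n * (n : ℝ) ^ (-σ) * (cc V t n).im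

/-- the majorant -/
def bb (M : ℝ) (n : ℕ) : ℝ := 16 * M * (n : ℝ) ^ (-(5 / 4) : ℝ)

lemma bb_sum (M : ℝ) : Summable (bb M) := by
  unfold bb
  exact (Real.summable_nat_rpow.2 (by norm_num)).mul_left _

lemma norm_term {V : ℂ → ℂ} {M : ℝ} (hM : 0 ≤ M) (t : ℝ)
    (hvh : ∀ n : ℕ, 1 ≤ n → ‖VH V (Real.log n)‖ ≤ 4 * M / n) (n : ℕ) {σ : ℝ} (hσ : 1 / 2 ≤ σ) :
    ArithmeticFunction.vonMangoldt n * (n : ℝ) ^ (-σ) * ‖cc V t n‖ ≤ bb M n := by
  rcases Nat.eq_zero_or_pos n with h | h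
  · subst h
    unfold bb
    simp
  · have hn1 : (1 : ℝ) ≤ n := by exact_mod_cast h
    have hn0 : (0 : ℝ) < n := by linarith
    rw [cc_norm V t h]
    have h1 : (n : ℝ) ^ (-σ) ≤ (n : ℝ) ^ (-(1 / 2) : ℝ) :=
      Real.rpow_le_rpow_of_exponent_le hn1 (by linarith)
    have h2 := mang_le n
    have h3 : ArithmeticFunction.vonMangoldt n * (n : ℝ) ^ (-σ) ≤
        4 * (n : ℝ) ^ (1 / 4 : ℝ) * (n : ℝ) ^ (-(1 / 2) : ℝ) :=
      mul_le_mul h2 h1 (by positivity) (by positivity)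
    have h4 : ArithmeticFunction.vonMangoldt n * (n : ℝ) ^ (-σ) * ‖VH V (Real.log n)‖ ≤
        4 * (n : ℝ) ^ (1 / 4 : ℝ) * (n : ℝ) ^ (-(1 / 2) : ℝ) * (4 * M / n) :=
      mul_le_mul h3 (hvh n h) (norm_nonneg _) (by positivity)
    refine h4.trans (le_of_eq ?_)
    unfold bb
    have h5 : (n : ℝ) ^ (-(5 / 4) : ℝ) = (n : ℝ) ^ (1 / 4 : ℝ) * (n : ℝ) ^ (-(1 / 2) : ℝ) *
        (n : ℝ) ^ (-1 : ℝ) := by
      rw [rp_mul h, rp_mul h]
      norm_num
    rw [h5, Real.rpow_neg_one]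
    ring

lemma ff_le {V : ℂ → ℂ} {M : ℝ} (hM : 0 ≤ M) (t : ℝ)
    (hvh : ∀ n : ℕ, 1 ≤ n → ‖VH V (Real.log n)‖ ≤ 4 * M / n) (n : ℕ) {σ : ℝ} (hσ : 1 / 2 ≤ σ) :
    ‖ff V t n σ‖ ≤ bb M n := by
  refine le_trans ?_ (norm_term hM t hvh n hσ)
  unfold ff
  rw [norm_mul, Real.norm_of_nonneg (mul_nonneg ArithmeticFunction.vonMangoldt_nonneg
    (by positivity))]
  exact mul_le_mul_of_nonneg_left (Complex.abs_im_le_norm _)
    (mul_nonneg ArithmeticFunction.vonMangoldt_nonneg (by positivity))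

/-- the sum over the prime powers -/
def AA (V : ℂ → ℂ) (t σ : ℝ) : ℂ :=
  ∑' n : ℕ, (ArithmeticFunction.vonMangoldt n : ℂ) * (n : ℂ) ^ (-(pt σ t)) * VH V (Real.log n)

lemma AA_im {V : ℂ → ℂ} {M : ℝ} (hM : 0 ≤ M) (t : ℝ)
    (hvh : ∀ n : ℕ, 1 ≤ n → ‖VH V (Real.log n)‖ ≤ 4 * M / n) {σ : ℝ} (hσ : 1 / 2 ≤ σ) :
    HasSum (fun n => ff V t n σ) (AA V t σ).im := by
  have h1 : Summable (fun n : ℕ => (ArithmeticFunction.vonMangoldt n : ℂ) * (n : ℂ) ^ (-(pt σ t)) *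
      VH V (Real.log n)) := by
    refine Summable.of_norm_bounded (bb_sum M) fun n => ?_
    rw [term_eq, norm_mul, Complex.norm_real, Real.norm_of_nonneg
      (mul_nonneg ArithmeticFunction.vonMangoldt_nonneg (by positivity))]
    exact norm_term hM t hvh n hσ
  have h2 := Complex.imCLM.hasSum h1.hasSum
  have h3 : (fun n => ff V t n σ) = fun n : ℕ => Complex.imCLM
      ((ArithmeticFunction.vonMangoldt n : ℂ) * (n : ℂ) ^ (-(pt σ t)) * VH V (Real.log n)) := by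
    funext n
    rw [term_eq, Complex.imCLM_apply, Complex.im_ofReal_mul]
    rfl
  rw [h3]
  exact h2

lemma ff_cont (V : ℂ → ℂ) (t : ℝ) (n : ℕ) : Continuous (ff V t n) := by
  unfold ff
  rcases Nat.eq_zero_or_pos n with h | h
  · subst h
    simp
    exact continuous_const
  · have hn : (n : ℝ) ≠ 0 := by exact_mod_cast h.ne'
    have h1 : Continuous (fun σ : ℝ => (n : ℝ) ^ (-σ)) :=
      continuous_const.rpow continuous_neg fun _ => Or.inl hn
    exact (continuous_const.mul h1).mul continuous_const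

lemma AA_int {V : ℂ → ℂ} {M : ℝ} (hM : 0 ≤ M) (t : ℝ)
    (hvh : ∀ n : ℕ, 1 ≤ n → ‖VH V (Real.log n)‖ ≤ 4 * M / n) :
    IntervalIntegrable (fun σ => (AA V t σ).im) volume (1 / 2) (3 / 2) := by
  apply ContinuousOn.intervalIntegrable
  rw [Set.uIcc_of_le (by norm_num)]
  have h1 : ContinuousOn (fun σ => ∑' n, ff V t n σ) (Set.Icc (1 / 2 : ℝ) (3 / 2)) :=
    continuousOn_tsum (fun n => (ff_cont V t n).continuousOn) (bb_sum M)
      (fun n σ hσ => ff_le hM t hvh n hσ.1)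
  exact h1.congr fun σ hσ => (AA_im hM t hvh hσ.1).tsum_eq.symm

/-- integral of the powers -/
lemma pow_int {n : ℕ} (hn : 2 ≤ n) : ∫ σ in (1 / 2 : ℝ)..(3 / 2), (n : ℝ) ^ (-σ) =
    ((n : ℝ) ^ (-(1 / 2) : ℝ) - (n : ℝ) ^ (-(3 / 2) : ℝ)) / Real.log n := by
  have hn0 : (0 : ℝ) < n := by exact_mod_cast (by omega : 0 < n)
  have hl : 0 < Real.log n := Real.log_pos (by exact_mod_cast (by omega : 1 < n))
  have h1 : ∀ σ ∈ Set.uIcc (1 / 2 : ℝ) (3 / 2), HasDerivAt
      (fun σ : ℝ => -((n : ℝ) ^ (-σ) / Real.log n)) ((n : ℝ) ^ (-σ)) σ := by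
    intro σ _
    have h2 : HasDerivAt (fun σ : ℝ => (n : ℝ) ^ (-σ)) (Real.log n * (-1) * (n : ℝ) ^ (-σ)) σ :=
      (hasDerivAt_neg σ).const_rpow hn0
    have h3 := (h2.div_const (Real.log n)).neg
    refine h3.congr_deriv ?_
    rw [mul_neg_one, neg_mul, neg_div, neg_neg, mul_div_cancel_left₀ _ hl.ne']
  rw [intervalIntegral.integral_eq_sub_of_hasDerivAt h1]
  · ring
  · apply Continuous.intervalIntegrable
    exact continuous_const.rpow continuous_neg fun _ => Or.inl hn0.ne'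

lemma ff_int (V : ℂ → ℂ) (t : ℝ) (n : ℕ) : ∫ σ in (1 / 2 : ℝ)..(3 / 2), ff V t n σ =
    ArithmeticFunction.vonMangoldt n / (Real.sqrt n * Real.log n) * (cc V t n).im -
    ArithmeticFunction.vonMangoldt n / Real.log n * (n : ℝ) ^ (-(3 / 2) : ℝ) * (cc V t n).im := by
  rcases lt_or_ge n 2 with h | h
  · have h0 : ArithmeticFunction.vonMangoldt n = 0 := by
      interval_cases n
      · simp
      · exact ArithmeticFunction.vonMangoldt_apply_one
    unfold ff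
    rw [h0]
    simp
  · unfold ff
    have h1 : (fun σ : ℝ => ArithmeticFunction.vonMangoldt n * (n : ℝ) ^ (-σ) * (cc V t n).im) =
        fun σ : ℝ => (ArithmeticFunction.vonMangoldt n * (cc V t n).im) * (n : ℝ) ^ (-σ) := by
      funext σ
      ring
    rw [h1, intervalIntegral.integral_const_mul, pow_int h]
    have h2 : (n : ℝ) ^ (-(1 / 2) : ℝ) = (Real.sqrt n)⁻¹ := by
      rw [Real.rpow_neg n.cast_nonneg, Real.sqrt_eq_rpow]
    rw [h2]
    have hl : 0 < Real.log n := Real.log_pos (by exact_mod_cast (by omega : 1 < n))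
    have hs : 0 < Real.sqrt n := Real.sqrt_pos.2 (by exact_mod_cast (by omega : 0 < n))
    field_simp

/-- the constant -/
def KK : ℝ := 4 * ∑' n : ℕ, (n : ℝ) ^ (-(3 / 2) : ℝ)

/-- the part of the primes -/
lemma prime_part {V : ℂ → ℂ} {M0 M : ℝ} (h0 : 0 ≤ M0) (hM : 0 ≤ M) (hV : KerOK V M0 M)
    (hvh : ∀ n : ℕ, 1 ≤ n → ‖VH V (Real.log n)‖ ≤ 4 * M / n) (t : ℝ) :
    |(∫ σ in (1 / 2 : ℝ)..(3 / 2), (AA V t σ).im) -
      ∑' n : ℕ, ArithmeticFunction.vonMangoldt n / (Real.sqrt n * Real.log n) * (cc V t n).im| ≤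
      KK * M0 := by
  have hs : HasSum (fun n => ∫ σ in (1 / 2 : ℝ)..(3 / 2), ff V t n σ)
      (∫ σ in (1 / 2 : ℝ)..(3 / 2), (AA V t σ).im) := by
    apply intervalIntegral.hasSum_integral_of_dominated_convergence (fun n _ => bb M n)
    · intro n
      exact (ff_cont V t n).aestronglyMeasurable
    · intro n
      refine Eventually.of_forall fun σ hσ => ?_
      rw [Set.uIoc_of_le (by norm_num)] at hσ
      exact ff_le hM t hvh n hσ.1.le
    · exact Eventually.of_forall fun σ _ => bb_sum M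
    · exact intervalIntegrable_const
    · refine Eventually.of_forall fun σ hσ => ?_
      rw [Set.uIoc_of_le (by norm_num)] at hσ
      exact AA_im hM t hvh hσ.1.le
  have hS : Summable (fun n : ℕ => (n : ℝ) ^ (-(3 / 2) : ℝ)) :=
    Real.summable_nat_rpow.2 (by norm_num)
  have hr : ∀ n : ℕ, ‖ArithmeticFunction.vonMangoldt n / Real.log n * (n : ℝ) ^ (-(3 / 2) : ℝ) *
      (cc V t n).im‖ ≤ 4 * M0 * (n : ℝ) ^ (-(3 / 2) : ℝ) := by
    intro n
    rcases lt_or_ge n 2 with h | h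
    · have h0' : ArithmeticFunction.vonMangoldt n = 0 := by
        interval_cases n
        · simp
        · exact ArithmeticFunction.vonMangoldt_apply_one
      rw [h0']
      simp
      positivity
    · have hl : 0 < Real.log n := Real.log_pos (by exact_mod_cast (by omega : 1 < n))
      have h1 : ArithmeticFunction.vonMangoldt n / Real.log n ≤ 1 := by
        rw [div_le_one hl]
        exact ArithmeticFunction.vonMangoldt_le_log
      have h2 : 0 ≤ ArithmeticFunction.vonMangoldt n / Real.log n :=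
        div_nonneg ArithmeticFunction.vonMangoldt_nonneg hl.le
      have h3 : |(cc V t n).im| ≤ 4 * M0 := by
        refine (Complex.abs_im_le_norm _).trans ?_
        rw [cc_norm V t (by omega)]
        exact vh_le h0 hV _
      rw [norm_mul, norm_mul, Real.norm_of_nonneg h2, Real.norm_of_nonneg (by positivity :
        (0 : ℝ) ≤ (n : ℝ) ^ (-(3 / 2) : ℝ)), Real.norm_eq_abs]
      calc ArithmeticFunction.vonMangoldt n / Real.log n * (n : ℝ) ^ (-(3 / 2) : ℝ) *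
            |(cc V t n).im| ≤ 1 * (n : ℝ) ^ (-(3 / 2) : ℝ) * (4 * M0) :=
            mul_le_mul (mul_le_mul_of_nonneg_right h1 (by positivity)) h3 (abs_nonneg _)
              (by positivity)
        _ = 4 * M0 * (n : ℝ) ^ (-(3 / 2) : ℝ) := by ring
  have hrs : Summable (fun n : ℕ => ArithmeticFunction.vonMangoldt n / Real.log n *
      (n : ℝ) ^ (-(3 / 2) : ℝ) * (cc V t n).im) :=
    Summable.of_norm_bounded (hS.mul_left (4 * M0)) hr
  have hts : Summable (fun n : ℕ => ArithmeticFunction.vonMangoldt n /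
      (Real.sqrt n * Real.log n) * (cc V t n).im) := by
    have h1 := hs.summable.add hrs
    refine h1.congr fun n => ?_
    rw [ff_int]
    ring
  have h2 : (∫ σ in (1 / 2 : ℝ)..(3 / 2), (AA V t σ).im) =
      (∑' n : ℕ, ArithmeticFunction.vonMangoldt n / (Real.sqrt n * Real.log n) * (cc V t n).im) -
      ∑' n : ℕ, ArithmeticFunction.vonMangoldt n / Real.log n * (n : ℝ) ^ (-(3 / 2) : ℝ) *
        (cc V t n).im := by
    rw [← hs.tsum_eq, ← hts.tsum_sub hrs]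
    exact tsum_congr fun n => ff_int V t n
  rw [h2]
  have h3 : ∀ a b : ℝ, a - b - a = -b := by intro a b; ring
  rw [h3, abs_neg, ← Real.norm_eq_abs]
  refine (norm_tsum_le_tsum_norm hrs.norm).trans ?_
  refine (hrs.norm.tsum_le_tsum hr (hS.mul_left (4 * M0))).trans (le_of_eq ?_)
  rw [tsum_mul_left]
  unfold KK
  ring

end

end Pool.Agent.Y923.OJ
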