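import Pool.Agent.Y923.OJ.SF1

/-!
# OJ-SF, part 2: the formula for `S0`
-/

set_option autoImplicit false
set_option maxHeartbeats 400000

namespace Pool.Agent.Y923.OJ

open Finset Filter Topology MeasureTheory
open H370 (zset mult NN Zf zz)
open Pool.Agent.Y746.OM Pool.Agent.Y746.OJ

noncomputable section

lemma Zf_re_lt {U1 U2 : ℝ} {s : ℂ} (hs : s ∈ Zf riemannZeta U1 U2) : s.re < 1 := by
  unfold Zf at hs
  split_ifs at hs with h
  · rw [Set.Finite.mem_toFinset] at hs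
    exact hs.2.1
  · simp at hs

/-- the terms of the zeros -/
def hw (V : ℂ → ℂ) (t : ℝ) (s : ℂ) (w : ℝ) : ℝ :=
  (V (((s.im - t : ℝ) : ℂ) - (w : ℂ) * Complex.I)).im

lemma hw_cont {V : ℂ → ℂ} (hV : Differentiable ℂ V) (t : ℝ) (s : ℂ) : Continuous (hw V t s) := by
  unfold hw
  refine Complex.continuous_im.comp (hV.continuous.comp ?_)
  fun_prop

/-- the sum over the zeros -/
def BB (V : ℂ → ℂ) (t U1 U2 σ : ℝ) : ℂ := ∑ s ∈ ZR U1 U2 σ, (mult riemannZeta s : ℂ) *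
  V (((s.im - t : ℝ) : ℂ) - ((s.re - σ : ℝ) : ℂ) * Complex.I)

lemma BB_im (V : ℂ → ℂ) (t U1 U2 σ : ℝ) : (BB V t U1 U2 σ).im =
    ∑ s ∈ Zf riemannZeta U1 U2, (Set.Iio s.re).indicator
      (fun σ => (mult riemannZeta s : ℝ) * hw V t s (s.re - σ)) σ := by
  unfold BB ZR
  rw [Complex.im_sum, Finset.sum_filter]
  refine Finset.sum_congr rfl fun s _ => ?_
  by_cases h : σ < s.re
  · rw [if_pos h, Set.indicator_of_mem (by exact h)]
    rw [← Complex.ofReal_natCast, Complex.im_ofReal_mul]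
    rfl
  · rw [if_neg h, Set.indicator_of_notMem (by exact h)]

lemma ind_int {V : ℂ → ℂ} (hV : Differentiable ℂ V) (t : ℝ) (s : ℂ) (m : ℝ) :
    IntegrableOn ((Set.Iio s.re).indicator (fun σ => m * hw V t s (s.re - σ)))
      (Set.Ioc (1 / 2 : ℝ) (3 / 2)) := by
  have hc : Continuous (fun σ => m * hw V t s (s.re - σ)) :=
    continuous_const.mul ((hw_cont hV t s).comp (continuous_const.sub continuous_id))
  exact Integrable.indicator (hc.integrableOn_Ioc) measurableSet_Iio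

lemma ind_val {V : ℂ → ℂ} (t : ℝ) {s : ℂ} (hs : s.re < 1) (m : ℝ) :
    ∫ σ in Set.Ioc (1 / 2 : ℝ) (3 / 2), (Set.Iio s.re).indicator
      (fun σ => m * hw V t s (s.re - σ)) σ =
    if 1 / 2 < s.re then m * ∫ w in (0 : ℝ)..(s.re - 1 / 2), hw V t s w else 0 := by
  rw [setIntegral_indicator measurableSet_Iio]
  split_ifs with h
  · have h1 : Set.Ioc (1 / 2 : ℝ) (3 / 2) ∩ Set.Iio s.re = Set.Ioo (1 / 2) s.re := by
      ext x
      simp only [Set.mem_inter_iff, Set.mem_Ioc, Set.mem_Iio, Set.mem_Ioo]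
      constructor
      · rintro ⟨⟨h1, _⟩, h3⟩
        exact ⟨h1, h3⟩
      · rintro ⟨h1, h3⟩
        exact ⟨⟨h1, by linarith⟩, h3⟩
    rw [h1, ← integral_Ioc_eq_integral_Ioo, ← intervalIntegral.integral_of_le h.le,
      intervalIntegral.integral_const_mul]
    congr 1
    rw [intervalIntegral.integral_comp_sub_left (fun w => hw V t s w), sub_self]
  · have h1 : Set.Ioc (1 / 2 : ℝ) (3 / 2) ∩ Set.Iio s.re = ∅ := by
      ext x
      simp only [Set.mem_inter_iff, Set.mem_Ioc, Set.mem_Iio, Set.mem_empty_iff_false, iff_false]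
      rintro ⟨⟨h1, _⟩, h3⟩
      exact h (h1.trans h3)
    rw [h1]
    simp

lemma BB_int {V : ℂ → ℂ} (hV : Differentiable ℂ V) (t U1 U2 : ℝ) :
    IntegrableOn (fun σ => (BB V t U1 U2 σ).im) (Set.Ioc (1 / 2 : ℝ) (3 / 2)) := by
  have h1 : (fun σ => (BB V t U1 U2 σ).im) = fun σ => ∑ s ∈ Zf riemannZeta U1 U2,
      (Set.Iio s.re).indicator (fun σ => (mult riemannZeta s : ℝ) * hw V t s (s.re - σ)) σ := by
    funext σ
    exact BB_im V t U1 U2 σ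
  rw [h1]
  exact integrable_finset_sum _ fun s _ => ind_int hV t s _

lemma BB_val {V : ℂ → ℂ} (hV : Differentiable ℂ V) (t U1 U2 : ℝ) :
    ∫ σ in Set.Ioc (1 / 2 : ℝ) (3 / 2), (BB V t U1 U2 σ).im =
    ∑ s ∈ ZR U1 U2 (1 / 2), (mult riemannZeta s : ℝ) *
      ∫ w in (0 : ℝ)..(s.re - 1 / 2), hw V t s w := by
  have h1 : (fun σ => (BB V t U1 U2 σ).im) = fun σ => ∑ s ∈ Zf riemannZeta U1 U2,
      (Set.Iio s.re).indicator (fun σ => (mult riemannZeta s : ℝ) * hw V t s (s.re - σ)) σ := by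
    funext σ
    exact BB_im V t U1 U2 σ
  rw [h1, integral_finset_sum _ fun s _ => ind_int hV t s _]
  unfold ZR
  rw [Finset.sum_filter]
  refine Finset.sum_congr rfl fun s hs => ?_
  rw [ind_val t (Zf_re_lt hs)]

/-- the integrand -/
def GG (V : ℂ → ℂ) (t : ℝ) (p : ℝ × ℝ) : ℂ := LD (pt p.1 p.2) * V ((p.2 - t : ℝ) : ℂ)

lemma GG_int (hLI : S_LI) {V : ℂ → ℂ} {M0 M : ℝ} (hV : KerOK V M0 M) (h0 : 0 ≤ M0) (t : ℝ)
    {U1 U2 : ℝ} (h1 : 1 ≤ U1) : Integrable (GG V t)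
      ((volume.restrict (Set.Ioc (1 / 2 : ℝ) (3 / 2))).prod (volume.restrict (Set.Ioc U1 U2))) := by
  have h2 := (hLI U1 U2 h1).mono_set (Set.prod_mono (Set.Ioc_subset_Icc_self (a := (1 / 2 : ℝ))
    (b := 3 / 2)) (Set.Ioc_subset_Icc_self (a := U1) (b := U2)))
  have h3 : Integrable (fun p : ℝ × ℝ => LD (pt p.1 p.2))
      ((volume.restrict (Set.Ioc (1 / 2 : ℝ) (3 / 2))).prod (volume.restrict (Set.Ioc U1 U2))) := by
    rw [Measure.prod_restrict]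
    exact h2
  have hc : Continuous (fun p : ℝ × ℝ => V ((p.2 - t : ℝ) : ℂ)) := by
    refine hV.1.continuous.comp ?_
    fun_prop
  refine h3.mul_bdd (c := M0) hc.aestronglyMeasurable (Eventually.of_forall fun p => ?_)
  refine (hV.2.2.1 _).trans ?_
  have : Real.exp (-(p.2 - t) ^ 2 / 4) ≤ 1 := by
    rw [Real.exp_le_one_iff]
    have := sq_nonneg (p.2 - t)
    linarith
  exact (mul_le_mul_of_nonneg_left this h0).trans (by rw [mul_one])

lemma GG_im {V : ℂ → ℂ} {M0 M : ℝ} (hV : KerOK V M0 M) (t : ℝ) (p : ℝ × ℝ) :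
    (GG V t p).im = (LD (pt p.1 p.2)).im * (V ((p.2 - t : ℝ) : ℂ)).re := by
  unfold GG
  rw [Complex.mul_im, hV.2.1 (p.2 - t)]
  ring

/-- the inner integrals -/
def JJ (V : ℂ → ℂ) (t U1 U2 σ : ℝ) : ℝ := ∫ y in Set.Ioc U1 U2, (GG V t (σ, y)).im

lemma fub (hLI : S_LI) {V : ℂ → ℂ} {M0 M : ℝ} (hV : KerOK V M0 M) (h0 : 0 ≤ M0) (t : ℝ)
    {U1 U2 : ℝ} (h1 : 1 ≤ U1) (h12 : U1 ≤ U2) :
    ∫ y in U1..U2, S0 y * (V ((y - t : ℝ) : ℂ)).re =
      -(1 / Real.pi) * ∫ σ in Set.Ioc (1 / 2 : ℝ) (3 / 2), JJ V t U1 U2 σ := by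
  have h2 : ∀ y : ℝ, S0 y * (V ((y - t : ℝ) : ℂ)).re =
      -(1 / Real.pi) * ∫ σ in Set.Ioc (1 / 2 : ℝ) (3 / 2), (GG V t (σ, y)).im := by
    intro y
    unfold S0
    rw [intervalIntegral.integral_of_le (by norm_num), mul_assoc, ← integral_mul_const]
    congr 1
    refine integral_congr_ae (Eventually.of_forall fun σ => ?_)
    exact (GG_im hV t (σ, y)).symm
  rw [intervalIntegral.integral_of_le h12]
  simp_rw [h2]
  rw [integral_const_mul]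
  congr 1
  unfold JJ
  have h3 := integral_integral_swap (f := fun σ y => (GG V t (σ, y)).im)
    (μ := volume.restrict (Set.Ioc (1 / 2 : ℝ) (3 / 2))) (ν := volume.restrict (Set.Ioc U1 U2))
    (Complex.imCLM.integrable_comp (GG_int hLI hV h0 t h1))
  exact h3.symm

lemma JJ_int (hLI : S_LI) {V : ℂ → ℂ} {M0 M : ℝ} (hV : KerOK V M0 M) (h0 : 0 ≤ M0) (t : ℝ)
    {U1 U2 : ℝ} (h1 : 1 ≤ U1) :
    IntegrableOn (fun σ => JJ V t U1 U2 σ) (Set.Ioc (1 / 2 : ℝ) (3 / 2)) :=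
  (Complex.imCLM.integrable_comp (GG_int hLI hV h0 t h1 (U2 := U2))).integral_prod_left

lemma JJ_ae (hLI : S_LI) {V : ℂ → ℂ} {M0 M : ℝ} (hV : KerOK V M0 M) (h0 : 0 ≤ M0) (t : ℝ)
    {U1 U2 : ℝ} (h1 : 1 ≤ U1) (h12 : U1 ≤ U2) :
    ∀ᵐ σ ∂(volume.restrict (Set.Ioc (1 / 2 : ℝ) (3 / 2))), JJ V t U1 U2 σ =
      (∫ y in U1..U2, LD (pt σ y) * V ((y - t : ℝ) : ℂ)).im := by
  filter_upwards [(GG_int hLI hV h0 t h1 (U2 := U2)).prod_right_ae] with σ hσ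
  unfold JJ
  rw [intervalIntegral.integral_of_le h12]
  exact Complex.imCLM.integral_comp_comm hσ

/-- the main estimate -/
lemma main_est (hLI : S_LI) {V : ℂ → ℂ} {M0 M : ℝ} (hV : KerOK V M0 M) (h0 : 0 ≤ M0)
    (hM : 0 ≤ M) (hvh : ∀ n : ℕ, 1 ≤ n → ‖VH V (Real.log n)‖ ≤ 4 * M / n) (t : ℝ)
    {U1 U2 K : ℝ} (h1 : 1 ≤ U1) (h12 : U1 ≤ U2)
    (hCT : ∀ σ : ℝ, 1 / 2 ≤ σ → σ < 3 / 2 → (∀ s ∈ Zf riemannZeta U1 U2, s.re ≠ σ) →
      ‖(∫ y in U1..U2, LD (pt σ y) * V ((y - t : ℝ) : ℂ)) + AA V t σ +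
        2 * Real.pi * BB V t U1 U2 σ‖ ≤ K) :
    |(∫ σ in Set.Ioc (1 / 2 : ℝ) (3 / 2), JJ V t U1 U2 σ) +
      (∫ σ in Set.Ioc (1 / 2 : ℝ) (3 / 2), (AA V t σ).im) +
      2 * Real.pi * ∫ σ in Set.Ioc (1 / 2 : ℝ) (3 / 2), (BB V t U1 U2 σ).im| ≤ K := by
  have hA : IntegrableOn (fun σ => (AA V t σ).im) (Set.Ioc (1 / 2 : ℝ) (3 / 2)) := by
    have := AA_int hM t hvh
    rwa [intervalIntegrable_iff_integrableOn_Ioc_of_le (by norm_num)] at this
  have hJ := JJ_int hLI hV h0 t h1 (U2 := U2)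
  have hB := BB_int hV.1 t U1 U2
  have hJA : IntegrableOn (fun σ => JJ V t U1 U2 σ + (AA V t σ).im)
      (Set.Ioc (1 / 2 : ℝ) (3 / 2)) := hJ.add hA
  rw [← integral_const_mul, ← integral_add hJ hA, ← integral_add hJA (hB.const_mul _)]
  have hfin : ∀ᵐ σ : ℝ ∂(volume.restrict (Set.Ioc (1 / 2 : ℝ) (3 / 2))),
      σ ∉ (insert (3 / 2 : ℝ) ((Zf riemannZeta U1 U2).image Complex.re) : Finset ℝ) := by
    refine ae_restrict_of_ae ?_
    rw [ae_iff]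
    simp only [not_not]
    exact (Finset.finite_toSet _).measure_zero _
  have hae : ∀ᵐ σ ∂(volume.restrict (Set.Ioc (1 / 2 : ℝ) (3 / 2))),
      ‖JJ V t U1 U2 σ + (AA V t σ).im + 2 * Real.pi * (BB V t U1 U2 σ).im‖ ≤ K := by
    filter_upwards [hfin, JJ_ae hLI hV h0 t h1 h12, ae_restrict_mem measurableSet_Ioc] with σ h2 h3 h4
    have h5 : σ ≠ 3 / 2 := by
      rintro rfl
      exact h2 (Finset.mem_insert_self _ _)
    have h6 : ∀ s ∈ Zf riemannZeta U1 U2, s.re ≠ σ := by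
      intro s hs hs'
      exact h2 (Finset.mem_insert_of_mem (Finset.mem_image.2 ⟨s, hs, hs'⟩))
    have h7 := hCT σ h4.1.le (lt_of_le_of_ne h4.2 h5) h6
    refine le_trans ?_ ((Complex.abs_im_le_norm _).trans h7)
    rw [h3, Real.norm_eq_abs]
    refine le_of_eq ?_
    congr 1
    rw [Complex.add_im, Complex.add_im]
    congr 1
    have h8 : (2 * (Real.pi : ℂ)) = ((2 * Real.pi : ℝ) : ℂ) := by push_cast; rfl
    rw [h8, Complex.im_ofReal_mul]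
  have h9 := norm_integral_le_of_norm_le_const (μ := volume.restrict (Set.Ioc (1 / 2 : ℝ) (3 / 2)))
    hae
  rw [Real.norm_eq_abs] at h9
  refine h9.trans (le_of_eq ?_)
  simp [Measure.real]
  norm_num

theorem t_SF (hVH : S_VH) (hCT : S_CT) (hLI : S_LI) : S_SF := by
  obtain ⟨C1, T1, hC1, hT1, hct⟩ := hCT
  have hKK : 0 ≤ KK := by
    unfold KK
    have : 0 ≤ ∑' n : ℕ, (n : ℝ) ^ (-(3 / 2) : ℝ) := tsum_nonneg fun n => by positivity
    linarith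
  refine ⟨C1 + KK, T1, by linarith, hT1, fun T hT => ?_⟩
  obtain ⟨U1, U2, hU1, hU1', hU2, hU2', hV'⟩ := hct T hT
  refine ⟨U1, U2, hU1, hU1', hU2, hU2', fun V M0 M h0 hM hV t ht1 ht2 => ?_⟩
  have hvh := hVH V M0 M h0 hM hV
  have h1 : 1 ≤ U1 := by linarith
  have h12 : U1 ≤ U2 := by linarith
  have hm := main_est hLI hV h0 hM hvh t h1 h12 (K := C1 * M / T)
    (fun σ hσ1 hσ2 hσ3 => hV' V M0 M h0 hM hV t ht1 ht2 σ hσ1 hσ2 hσ3)
  have hp := prime_part h0 hM hV hvh t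
  rw [intervalIntegral.integral_of_le (by norm_num)] at hp
  rw [BB_val hV.1] at hm
  rw [fub hLI hV h0 t h1 h12]
  have e1 : (∑' n : ℕ, ArithmeticFunction.vonMangoldt n / (Real.sqrt n * Real.log n) *
          ((n : ℂ) ^ (-((t : ℂ) * Complex.I)) * VH V (Real.log n)).im) =
      ∑' n : ℕ, ArithmeticFunction.vonMangoldt n / (Real.sqrt n * Real.log n) * (cc V t n).im := rfl
  have e2 : (∑ s ∈ ZR U1 U2 (1 / 2), (mult riemannZeta s : ℝ) *
          ∫ w in (0 : ℝ)..(s.re - 1 / 2),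
            (V (((s.im - t : ℝ) : ℂ) - (w : ℂ) * Complex.I)).im) =
      ∑ s ∈ ZR U1 U2 (1 / 2), (mult riemannZeta s : ℝ) *
          ∫ w in (0 : ℝ)..(s.re - 1 / 2), hw V t s w := rfl
  rw [e1, e2]
  set P := ∑' n : ℕ, ArithmeticFunction.vonMangoldt n / (Real.sqrt n * Real.log n) * (cc V t n).im
  set b := ∑ s ∈ ZR U1 U2 (1 / 2), (mult riemannZeta s : ℝ) *
          ∫ w in (0 : ℝ)..(s.re - 1 / 2), hw V t s w
  set a := ∫ σ in Set.Ioc (1 / 2 : ℝ) (3 / 2), (AA V t σ).im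
  set j := ∫ σ in Set.Ioc (1 / 2 : ℝ) (3 / 2), JJ V t U1 U2 σ
  have hπ : 0 < Real.pi := Real.pi_pos
  have hπ1 : 1 / Real.pi ≤ 1 := by
    rw [div_le_one hπ]
    linarith [Real.pi_gt_three]
  have e3 : -(1 / Real.pi) * j - 1 / Real.pi * P - 2 * b =
      (1 / Real.pi) * (-(j + a + 2 * Real.pi * b) + (a - P)) := by
    field_simp
    ring
  rw [e3, abs_mul, abs_of_pos (by positivity : 0 < 1 / Real.pi)]
  have hT0 : 0 < T := by linarith
  have h3 : |-(j + a + 2 * Real.pi * b) + (a - P)| ≤ C1 * M / T + KK * M0 := by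
    refine (abs_add_le _ _).trans ?_
    rw [abs_neg]
    exact add_le_add hm hp
  calc 1 / Real.pi * |-(j + a + 2 * Real.pi * b) + (a - P)| ≤
        1 * |-(j + a + 2 * Real.pi * b) + (a - P)| :=
        mul_le_mul_of_nonneg_right hπ1 (abs_nonneg _)
    _ ≤ C1 * M / T + KK * M0 := by rw [one_mul]; exact h3
    _ ≤ (C1 + KK) * (M0 + M / T) := by
        have h4 : 0 ≤ M / T := by positivity
        have h5 : C1 * M / T = C1 * (M / T) := by ring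
        rw [h5]
        nlinarith [mul_nonneg hC1.le h0, mul_nonneg hKK h4]

end

end Pool.Agent.Y923.OJ
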